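import Pool.Agent.W_MP_6663ab_lc.SFinal

set_option autoImplicit false

open Pool.Agent.SC Filter Topology

/-- **Asymptotics of the average state complexity of the intersection.** Let `A` be a finite
alphabet with `k ≥ 2` letters. There is exactly one `ν > 0` with `1 - ν = exp (-k ν)`. Define
functions `t_D` on pairs of natural numbers by `t_0 (x, y) = (1 - (1 - ν) ^ x) (1 - (1 - ν) ^ y)`
and `t_{D+1} (x, y) = 1 - (1 - E t_D (X, Y)) ^ k` with independent Poisson variables `X`, `Y` of
means `x`, `y` (this is `tRec k ν D x y`). Then `t_D (1, 1) / ν ^ 2` decreases to a limit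
`c ∈ (0, 1)`, and the average `En A n` of `sc (L ∩ L')` over all pairs of regular languages over
`A` with state complexity `n` satisfies `En A n / n ^ 2 → c`. -/
theorem Pool.Agent.Results.MP_6663ab_lc.SharpAsymptotics.result.{u}
    (A : Type u) [Fintype A] (hA : 2 ≤ Fintype.card A) :
    ∃ ν c : ℝ,
      (0 < ν ∧ 1 - ν = Real.exp (-(Fintype.card A * ν)) ∧
        ∀ x : ℝ, 0 < x → 1 - x = Real.exp (-(Fintype.card A * x)) → x = ν) ∧
      Antitone (fun D : ℕ => tRec (Fintype.card A) ν D 1 1 / ν ^ 2) ∧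
      Tendsto (fun D : ℕ => tRec (Fintype.card A) ν D 1 1 / ν ^ 2) atTop (𝓝 c) ∧
      0 < c ∧ c < 1 ∧
      Tendsto (fun n : ℕ => En A n / (n : ℝ) ^ 2) atTop (𝓝 c) :=
  sharp_asymptotics A hA
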